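import Pool.Agent.R251.End.Shell

set_option autoImplicit false

/-! Comparison with the centred family at and below the critical exponent. -/

open MeasureTheory Set ENNReal NNReal Metric

namespace Pool.Agent.R251.End

open Pool.Agent.H810R3.Tub (Space box nor Fb Fb_measurable wv wv_pos Fb_int box_sub_ball
  finrank_space interp lower enorm_sum_box)

/-- Passing to the norms. -/
theorem norm_of_int {d : ℕ} {ι : Type} [Fintype ι] (N : ℝ) (ω : ι → EuclideanSpace ℝ (Fin d))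
    (f : ι → Fin d → Space d) (a : ι → Space d) {p D : ℝ} (hp : 1 ≤ p) (hD : 0 < D)
    (h : ∫⁻ y, Fb N ω f a y ^ p ≤ ENNReal.ofReal D * ∫⁻ y, Fb N ω f (fun _ => 0) y ^ p) :
    eLpNorm (fun y : Space d => ∑ i, (box N (nor (ω i)) (f i) (a i)).indicator (fun _ => (1 : ℝ)) y)
      (ENNReal.ofReal p) volume ≤ ENNReal.ofReal (D ^ (1 / p)) *
        eLpNorm (fun y : Space d => ∑ i,
          (box N (nor (ω i)) (f i) 0).indicator (fun _ => (1 : ℝ)) y) (ENNReal.ofReal p) volume := by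
  have hp0 : 0 < p := by linarith
  have hp1 : ENNReal.ofReal p ≠ 0 := by
    rw [ne_eq, ENNReal.ofReal_eq_zero, not_le]
    exact hp0
  rw [eLpNorm_eq_lintegral_rpow_enorm_toReal hp1 ENNReal.ofReal_ne_top,
    eLpNorm_eq_lintegral_rpow_enorm_toReal hp1 ENNReal.ofReal_ne_top, ENNReal.toReal_ofReal hp0.le]
  have e1 : ∫⁻ y : Space d, ‖∑ i, (box N (nor (ω i)) (f i) (a i)).indicator (fun _ => (1 : ℝ)) y‖ₑ ^ p =
      ∫⁻ y, Fb N ω f a y ^ p := by
    refine lintegral_congr fun y => ?_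
    rw [enorm_sum_box]
  have e2 : ∫⁻ y : Space d, ‖∑ i, (box N (nor (ω i)) (f i) 0).indicator (fun _ => (1 : ℝ)) y‖ₑ ^ p =
      ∫⁻ y, Fb N ω f (fun _ => 0) y ^ p := by
    refine lintegral_congr fun y => ?_
    rw [← enorm_sum_box]
  rw [e1, e2, ← ENNReal.ofReal_rpow_of_pos hD, ← ENNReal.mul_rpow_of_nonneg _ _ (by positivity)]
  exact ENNReal.rpow_le_rpow h (by positivity)

theorem card_pow {d : ℕ} (hd : 1 ≤ d) {κ N c : ℝ} (hκ : 0 < κ) (hN : 0 < N) (hc : κ * N ^ d ≤ c) :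
    κ ^ (1 + 1 / (d : ℝ)) * N ^ (d + 1) ≤ c ^ (1 + 1 / (d : ℝ)) := by
  have hd0 : (0 : ℝ) < d := by exact_mod_cast hd
  have h1 : (κ * N ^ d) ^ (1 + 1 / (d : ℝ)) ≤ c ^ (1 + 1 / (d : ℝ)) :=
    Real.rpow_le_rpow (by positivity) hc (by positivity)
  refine le_trans (le_of_eq ?_) h1
  rw [Real.mul_rpow hκ.le (by positivity), ← Real.rpow_natCast N d, ← Real.rpow_mul hN.le,
    ← Real.rpow_natCast N (d + 1)]
  congr 2
  push_cast
  field_simp

/-- The critical exponent. -/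
theorem endpoint {d : ℕ} (hd : 1 ≤ d) {κ E : ℝ} (hκ : 0 < κ) (hE : 0 < E) : ∃ C : ℝ, 0 < C ∧
    ∀ (ι : Type) [Fintype ι] [Nonempty ι] (N : ℝ), 1 ≤ N → ∀ (ω : ι → EuclideanSpace ℝ (Fin d))
      (f : ι → Fin d → Space d) (a : ι → Space d), κ * N ^ d ≤ (Fintype.card ι : ℝ) →
    (∀ i, Orthonormal ℝ (Fin.cons (nor (ω i)) (f i) : Fin (d + 1) → Space d)) →
    ∫⁻ y, Fb N ω f a y ^ (1 + 1 / (d : ℝ)) ≤
      ENNReal.ofReal (E * (N ^ (d + 2) * N ^ d) * (1 + Real.log N)) →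
    eLpNorm (fun y : Space d => ∑ i, (box N (nor (ω i)) (f i) (a i)).indicator (fun _ => (1 : ℝ)) y)
      (ENNReal.ofReal (1 + 1 / (d : ℝ))) volume ≤ ENNReal.ofReal C *
        eLpNorm (fun y : Space d => ∑ i,
          (box N (nor (ω i)) (f i) 0).indicator (fun _ => (1 : ℝ)) y) (ENNReal.ofReal (1 + 1 / (d : ℝ))) volume := by
  obtain ⟨c, hc, hlow⟩ := centred_low hd
  have hd0 : (0 : ℝ) < d := by exact_mod_cast hd
  have hκp : 0 < κ ^ (1 + 1 / (d : ℝ)) := Real.rpow_pos_of_pos hκ _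
  have hD : 0 < E / (c * κ ^ (1 + 1 / (d : ℝ))) := by positivity
  refine ⟨(E / (c * κ ^ (1 + 1 / (d : ℝ)))) ^ (1 / (1 + 1 / (d : ℝ))), Real.rpow_pos_of_pos hD _, ?_⟩
  intro ι _ _ N hN ω f a hcard hf hQ
  have hN0 : 0 < N := by linarith
  apply norm_of_int N ω f a (by
    have : 0 < 1 / (d : ℝ) := by positivity
    linarith) hD
  have h1 := hlow ι N hN ω f hf
  have h2 := card_pow hd hκ hN0 hcard
  have hlog : 0 ≤ Real.log N := Real.log_nonneg hN
  refine hQ.trans (le_trans ?_ (mul_le_mul' le_rfl h1))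
  rw [← ENNReal.ofReal_mul hD.le]
  apply ENNReal.ofReal_le_ofReal
  calc E * (N ^ (d + 2) * N ^ d) * (1 + Real.log N)
      = E / (c * κ ^ (1 + 1 / (d : ℝ))) * (c * ((κ ^ (1 + 1 / (d : ℝ)) * N ^ (d + 1)) * N ^ (d + 1)) *
          (1 + Real.log N)) := by
        field_simp
        ring
    _ ≤ _ := by gcongr

theorem real_small {V Q B D p q : ℝ} (hV : 0 < V) (hQ : 0 < Q) (hB : 0 < B) (hD : 0 < D) (hq : 1 < q)
    (hp : 1 ≤ p) (h : Q * B ^ (q - 1) ≤ D * V ^ q) :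
    V ^ (1 - (p - 1) / (q - 1)) * Q ^ ((p - 1) / (q - 1)) ≤
      D ^ ((p - 1) / (q - 1)) * (V ^ p * (B ^ (p - 1))⁻¹) := by
  have hq1 : 0 < q - 1 := by linarith
  set w : ℝ := (p - 1) / (q - 1) with hw
  have hw0 : 0 ≤ w := div_nonneg (by linarith) hq1.le
  have hwq : w * (q - 1) = p - 1 := div_mul_cancel₀ _ hq1.ne'
  have h1 : Q ≤ D * V ^ q * (B ^ (q - 1))⁻¹ := by
    rw [← div_eq_mul_inv, le_div_iff₀ (Real.rpow_pos_of_pos hB _)]
    exact h
  have h2 : Q ^ w ≤ D ^ w * V ^ (q * w) * (B ^ (p - 1))⁻¹ := by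
    calc Q ^ w ≤ (D * V ^ q * (B ^ (q - 1))⁻¹) ^ w := Real.rpow_le_rpow hQ.le h1 hw0
      _ = D ^ w * V ^ (q * w) * (B ^ (p - 1))⁻¹ := by
          rw [Real.mul_rpow (by positivity) (by positivity), Real.mul_rpow hD.le (by positivity),
            ← Real.rpow_mul hV.le, Real.inv_rpow (by positivity), ← Real.rpow_mul hB.le]
          congr 3
          rw [← hwq]; ring
  have h4 : V ^ (1 - w) * V ^ (q * w) = V ^ p := by
    rw [← Real.rpow_add hV]
    congr 1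
    have : 1 - w + q * w = 1 + w * (q - 1) := by ring
    rw [this, hwq]
    ring
  calc V ^ (1 - w) * Q ^ w ≤ V ^ (1 - w) * (D ^ w * V ^ (q * w) * (B ^ (p - 1))⁻¹) :=
        mul_le_mul_of_nonneg_left h2 (by positivity)
    _ = D ^ w * ((V ^ (1 - w) * V ^ (q * w)) * (B ^ (p - 1))⁻¹) := by ring
    _ = _ := by rw [h4]

/-- Below the critical exponent. -/
theorem below {d : ℕ} (hd : 1 ≤ d) {κ E : ℝ} (hκ : 0 < κ) (hE : 0 < E) : ∃ C : ℝ, 1 ≤ C ∧
    ∀ (ι : Type) [Fintype ι] [Nonempty ι] (N : ℝ), 1 ≤ N → ∀ (ω : ι → EuclideanSpace ℝ (Fin d))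
      (f : ι → Fin d → Space d) (a : ι → Space d), κ * N ^ d ≤ (Fintype.card ι : ℝ) →
    (∀ i, Orthonormal ℝ (Fin.cons (nor (ω i)) (f i) : Fin (d + 1) → Space d)) →
    ∫⁻ y, Fb N ω f a y ^ (1 + 1 / (d : ℝ)) ≤
      ENNReal.ofReal (E * (N ^ (d + 2) * N ^ d) * (1 + Real.log N)) →
    ∀ p : ℝ, 1 ≤ p → p ≤ 1 + 1 / (d : ℝ) →
    eLpNorm (fun y : Space d => ∑ i, (box N (nor (ω i)) (f i) (a i)).indicator (fun _ => (1 : ℝ)) y)
      (ENNReal.ofReal p) volume ≤ ENNReal.ofReal (C * (1 + Real.log N) ^ ((d : ℝ) * (1 - 1 / p))) *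
        eLpNorm (fun y : Space d => ∑ i,
          (box N (nor (ω i)) (f i) 0).indicator (fun _ => (1 : ℝ)) y) (ENNReal.ofReal p) volume := by
  have hd0 : (0 : ℝ) < d := by exact_mod_cast hd
  have hκp : 0 < κ ^ (1 + 1 / (d : ℝ)) := Real.rpow_pos_of_pos hκ _
  have hw0 := wv_pos d
  set w : ℝ := wv d with hw
  set b : ℝ := (1 + (d : ℝ)) ^ (d + 1) * w with hb
  have hb0 : 0 < b := by positivity
  set q : ℝ := 1 + 1 / (d : ℝ) with hq
  have hinv : 0 < 1 / (d : ℝ) := by positivity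
  have hq1 : 1 < q := by linarith
  set C : ℝ := max 1 (E * b ^ (1 / (d : ℝ)) / κ ^ q) with hC
  have hC1 : 1 ≤ C := le_max_left _ _
  have hC2 : E * b ^ (1 / (d : ℝ)) / κ ^ q ≤ C := le_max_right _ _
  have hC0 : 0 < C := by linarith
  refine ⟨C, hC1, ?_⟩
  intro ι _ _ N hN ω f a hcard hf hQi p hp hpq
  have hN0 : 0 < N := by linarith
  have hlog : 0 ≤ Real.log N := Real.log_nonneg hN
  have hl0 : 0 < 1 + Real.log N := by linarith
  have hwe : volume (ball (0 : Space d) 1) = ENNReal.ofReal w := by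
    rw [hw, wv, ENNReal.ofReal_toReal measure_ball_lt_top.ne]
  set c : ℝ := (Fintype.card ι : ℝ) with hc
  have hc0 : 0 < c := lt_of_lt_of_le (by positivity) hcard
  set V : ℝ := c * N ^ (d + 2) with hV
  have hV0 : 0 < V := by positivity
  have hVa : ∫⁻ y, Fb N ω f a y = ENNReal.ofReal V := Fb_int hN hf a
  have hV0' : ∫⁻ y, Fb N ω f (fun _ => 0) y = ENNReal.ofReal V := Fb_int hN hf _
  set B : ℝ := b * N ^ (2 * (d + 1)) with hB
  have hB0 : 0 < B := by positivity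
  have hBv : volume (closedBall (0 : Space d) ((1 + d) * N ^ 2)) = ENNReal.ofReal B := by
    have : Nontrivial (Space d) := by
      apply Module.nontrivial_of_finrank_pos (R := ℝ)
      rw [finrank_space]
      omega
    rw [Measure.addHaar_closedBall _ _ (by positivity), finrank_space, hwe,
      ← ENNReal.ofReal_mul (by positivity)]
    congr 1
    rw [hB, hb, mul_pow, ← pow_mul]
    ring
  have hFm := Fb_measurable N ω f a
  have hFm0 := Fb_measurable N ω f (fun _ => (0 : Space d))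
  set Q : ℝ := E * (N ^ (d + 2) * N ^ d) * (1 + Real.log N) with hQ
  have hQ0 : 0 < Q := by positivity
  set D : ℝ := C * (1 + Real.log N) with hD
  have hD0 : 0 < D := by positivity
  have hreal : Q * B ^ (q - 1) ≤ D * V ^ q := by
    have e1 : q - 1 = 1 / d := by rw [hq]; ring
    have e2 : B ^ (q - 1) = b ^ (1 / (d : ℝ)) * N ^ (2 * ((d : ℝ) + 1) * (1 / d)) := by
      rw [e1, hB, Real.mul_rpow hb0.le (by positivity), ← Real.rpow_natCast N, ← Real.rpow_mul hN0.le]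
      push_cast
      rfl
    have e3 : V ^ q = c ^ q * N ^ (((d : ℝ) + 2) * q) := by
      rw [hV, Real.mul_rpow hc0.le (by positivity), ← Real.rpow_natCast N, ← Real.rpow_mul hN0.le]
      push_cast
      rfl
    have e4 := card_pow hd hκ hN0 hcard
    rw [← hq] at e4
    have e5 : N ^ (d + 2) * N ^ d * N ^ (2 * ((d : ℝ) + 1) * (1 / d)) = N ^ (d + 1) * N ^ (((d : ℝ) + 2) * q) := by
      rw [← pow_add, ← Real.rpow_natCast N (d + 2 + d), ← Real.rpow_natCast N (d + 1), ← Real.rpow_add hN0,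
        ← Real.rpow_add hN0]
      congr 1
      rw [hq]
      push_cast
      field_simp
      ring
    rw [e2, e3, hQ, hD]
    calc E * (N ^ (d + 2) * N ^ d) * (1 + Real.log N) * (b ^ (1 / (d : ℝ)) * N ^ (2 * ((d : ℝ) + 1) * (1 / d)))
        = (E * b ^ (1 / (d : ℝ)) / κ ^ q) * (1 + Real.log N) * κ ^ q *
            (N ^ (d + 2) * N ^ d * N ^ (2 * ((d : ℝ) + 1) * (1 / d))) := by
          field_simp
      _ = (E * b ^ (1 / (d : ℝ)) / κ ^ q) * (1 + Real.log N) *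
            ((κ ^ q * N ^ (d + 1)) * N ^ (((d : ℝ) + 2) * q)) := by
          rw [e5]
          ring
      _ ≤ C * (1 + Real.log N) * (c ^ q * N ^ (((d : ℝ) + 2) * q)) := by
          gcongr
  have hint : ∫⁻ y, Fb N ω f a y ^ p ≤ ENNReal.ofReal (D ^ ((p - 1) / (q - 1))) *
      ∫⁻ y, Fb N ω f (fun _ => 0) y ^ p := by
    have h1 := interp (μ := (volume : Measure (Space d))) hFm hq1 hp hpq
    have h2 := lower (μ := (volume : Measure (Space d))) hFm0 (B := closedBall (0 : Space d) ((1 + d) * N ^ 2))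
      measurableSet_closedBall (by
        intro y hy
        unfold Fb
        apply Finset.sum_eq_zero
        intro i _
        exact indicator_of_notMem (fun h => hy (box_sub_ball hN (hf i) h)) _) hp
    rw [hV0', hBv, ENNReal.ofReal_rpow_of_pos hV0, ENNReal.ofReal_rpow_of_pos hB0] at h2
    have h3 : ENNReal.ofReal (V ^ p * (B ^ (p - 1))⁻¹) ≤ ∫⁻ y, Fb N ω f (fun _ => 0) y ^ p := by
      have hBr : 0 < B ^ (p - 1) := Real.rpow_pos_of_pos hB0 _
      rw [← div_eq_mul_inv, ENNReal.ofReal_div_of_pos hBr]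
      exact ENNReal.div_le_of_le_mul h2
    have hw0' : 0 ≤ (p - 1) / (q - 1) := div_nonneg (by linarith) (by linarith)
    calc ∫⁻ y, Fb N ω f a y ^ p
        ≤ (∫⁻ y, Fb N ω f a y) ^ (1 - (p - 1) / (q - 1)) *
          (∫⁻ y, Fb N ω f a y ^ q) ^ ((p - 1) / (q - 1)) := h1
      _ ≤ (ENNReal.ofReal V) ^ (1 - (p - 1) / (q - 1)) * (ENNReal.ofReal Q) ^ ((p - 1) / (q - 1)) := by
          rw [hVa]
          exact mul_le_mul' le_rfl (ENNReal.rpow_le_rpow hQi hw0')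
      _ = ENNReal.ofReal (V ^ (1 - (p - 1) / (q - 1)) * Q ^ ((p - 1) / (q - 1))) := by
          rw [ENNReal.ofReal_rpow_of_pos hV0, ENNReal.ofReal_rpow_of_pos hQ0,
            ← ENNReal.ofReal_mul (by positivity)]
      _ ≤ ENNReal.ofReal (D ^ ((p - 1) / (q - 1)) * (V ^ p * (B ^ (p - 1))⁻¹)) :=
          ENNReal.ofReal_le_ofReal (real_small hV0 hQ0 hB0 hD0 hq1 hp hreal)
      _ = ENNReal.ofReal (D ^ ((p - 1) / (q - 1))) * ENNReal.ofReal (V ^ p * (B ^ (p - 1))⁻¹) :=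
          ENNReal.ofReal_mul (by positivity)
      _ ≤ _ := mul_le_mul' le_rfl h3
  refine (norm_of_int N ω f a hp (Real.rpow_pos_of_pos hD0 _) hint).trans ?_
  refine mul_le_mul' (ENNReal.ofReal_le_ofReal ?_) le_rfl
  have hp0 : 0 < p := by linarith
  have e6 : (p - 1) / (q - 1) * (1 / p) = (d : ℝ) * (1 - 1 / p) := by
    have : q - 1 = 1 / d := by rw [hq]; ring
    rw [this]
    field_simp
  have e7 : (d : ℝ) * (1 - 1 / p) ≤ 1 := by
    have h1 : 1 / q ≤ 1 / p := one_div_le_one_div_of_le hp0 hpq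
    have h2 : 1 / q = d / (d + 1) := by rw [hq]; field_simp
    have h3 : (d : ℝ) * (1 - d / (d + 1)) ≤ 1 := by
      have : 1 - (d : ℝ) / (d + 1) = 1 / (d + 1) := by field_simp; ring
      rw [this, mul_one_div, div_le_one (by positivity)]
      linarith
    calc (d : ℝ) * (1 - 1 / p) ≤ d * (1 - 1 / q) := by gcongr
      _ ≤ 1 := by rw [h2]; exact h3
  rw [← Real.rpow_mul hD0.le, e6, hD, Real.mul_rpow hC0.le hl0.le]
  apply mul_le_mul_of_nonneg_right _ (by positivity)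
  calc C ^ ((d : ℝ) * (1 - 1 / p)) ≤ C ^ (1 : ℝ) := Real.rpow_le_rpow_of_exponent_le hC1 e7
    _ = C := Real.rpow_one C

end Pool.Agent.R251.End
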