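import Mathlib

set_option autoImplicit false

/-! The skew product estimate at the critical exponent. -/

open MeasureTheory Set ENNReal NNReal

namespace Pool.Agent.R251.End

/-- Minkowski's inequality for finite sums. -/
theorem mink {Y M : Type*} [MeasurableSpace Y] {ν : Measure Y} (A : Finset M) (f : M → Y → ℝ≥0∞)
    (hf : ∀ m, Measurable (f m)) {s : ℝ} (hs : 1 ≤ s) :
    (∫⁻ y, (∑ m ∈ A, f m y) ^ s ∂ν) ^ (1 / s) ≤ ∑ m ∈ A, (∫⁻ y, f m y ^ s ∂ν) ^ (1 / s) := by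
  classical
  have hs0 : 0 < s := by linarith
  induction A using Finset.induction_on with
  | empty =>
    simp only [Finset.sum_empty, ENNReal.zero_rpow_of_pos hs0, lintegral_zero]
    rw [ENNReal.zero_rpow_of_pos (by positivity)]
  | insert m A hm ih =>
    have h1 := ENNReal.lintegral_Lp_add_le (μ := ν) (f := f m) (g := fun y => ∑ m ∈ A, f m y)
      (hf m).aemeasurable (Finset.measurable_fun_sum _ fun m _ => hf m).aemeasurable hs
    rw [Finset.sum_insert hm]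
    have e : (∫⁻ y, (∑ m ∈ insert m A, f m y) ^ s ∂ν) =
        ∫⁻ y, (f m + fun y => ∑ m ∈ A, f m y) y ^ s ∂ν := by
      refine lintegral_congr fun y => ?_
      rw [Finset.sum_insert hm]
      rfl
    rw [e]
    exact h1.trans (add_le_add le_rfl ih)

section

variable {T X Y M : Type*} [MeasurableSpace T] [MeasurableSpace X] [MeasurableSpace Y]
  {τ : Measure T} {μ : Measure X} {ν : Measure Y} [SFinite τ] [SFinite μ] [SFinite ν]

omit [SFinite ν] in
/-- The interpolation between `L¹` and `L^{1/(1-θ)}`. -/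
theorem hold1 {H : Y → ℝ≥0∞} (hH : Measurable H) {θ : ℝ} (h0 : 0 < θ) (h1 : θ < 1) :
    ∫⁻ y, H y ^ (1 + θ) ∂ν ≤ (∫⁻ y, H y ∂ν) ^ θ * (∫⁻ y, H y ^ (1 / (1 - θ)) ∂ν) ^ (1 - θ) := by
  have h1' : 0 < 1 - θ := by linarith
  have h := ENNReal.lintegral_mul_norm_pow_le (μ := ν) hH.aemeasurable
    (hH.pow_const (1 / (1 - θ))).aemeasurable h0.le h1'.le (by ring)
  refine le_trans (le_of_eq (lintegral_congr fun y => ?_)) h
  rw [← ENNReal.rpow_mul, one_div, inv_mul_cancel₀ h1'.ne', ENNReal.rpow_one,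
    ENNReal.rpow_add_of_nonneg _ _ zero_le_one h0.le, ENNReal.rpow_one, mul_comm]

omit [SFinite τ] in
/-- **The skew product estimate at the critical exponent.** -/
theorem crit_step (A : Finset M) (w : M → T × X → ℝ≥0∞) (f : M → T × Y → ℝ≥0∞)
    (hwm : ∀ m, Measurable (w m)) (hfm : ∀ m, Measurable (f m)) {θ : ℝ}
    (h0 : 0 < θ) (h1 : θ < 1) {D W P Q : ℝ≥0∞}
    (hw1 : ∀ m ∈ A, ∀ t, ∫⁻ x, w m (t, x) ∂μ ≤ D)
    (hf1 : ∀ m ∈ A, ∀ t, ∫⁻ y, f m (t, y) ∂ν ≤ W)
    (hW : ∀ m ∈ A, ∫⁻ t, ∫⁻ x, w m (t, x) * ∑ m' ∈ A, w m' (t, x) ∂μ ∂τ ≤ P)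
    (hF : ∀ m ∈ A, ∫⁻ t, ∫⁻ y, f m (t, y) ^ (1 / (1 - θ)) ∂ν ∂τ ≤ Q) :
    ∫⁻ t, ∫⁻ x, ∫⁻ y, (∑ m ∈ A, w m (t, x) * f m (t, y)) ^ (1 + θ) ∂ν ∂μ ∂τ ≤
      (A.card : ℝ≥0∞) * (W ^ θ * (D ^ (1 - θ) * (Q ^ (1 - θ) * P ^ θ))) := by
  have h1' : 0 < 1 - θ := by linarith
  set s : ℝ := 1 / (1 - θ) with hs
  have hs1 : 1 ≤ s := by
    rw [hs, le_div_iff₀ h1']
    linarith
  have hs0 : 0 < s := by linarith
  have hsi : 1 / s = 1 - θ := by rw [hs, one_div_one_div]
  set V : T × X → ℝ≥0∞ := fun p => ∑ m ∈ A, w m p with hVd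
  have hVm : Measurable V := Finset.measurable_fun_sum _ fun m _ => hwm m
  set h : M → T → ℝ≥0∞ := fun m t => (∫⁻ y, f m (t, y) ^ s ∂ν) with hh
  have hhm : ∀ m, Measurable (h m) := fun m =>
    Measurable.lintegral_prod_right' (f := fun p => f m p ^ s) ((hfm m).pow_const s)
  set k : M → T → ℝ≥0∞ := fun m t => ∫⁻ x, w m (t, x) * V (t, x) ∂μ with hk
  have hkm : ∀ m, Measurable (k m) := fun m =>
    Measurable.lintegral_prod_right' (f := fun p => w m p * V p) ((hwm m).mul hVm)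
  have hfy : ∀ m t, Measurable (fun y => f m (t, y)) := fun m t =>
    (hfm m).comp (measurable_const.prodMk measurable_id)
  have hwx : ∀ m t, Measurable (fun x => w m (t, x)) := fun m t =>
    (hwm m).comp (measurable_const.prodMk measurable_id)
  have hVx : ∀ t, Measurable (fun x => V (t, x)) := fun t =>
    hVm.comp (measurable_const.prodMk measurable_id)
  -- integration in y
  have step1 : ∀ t x, ∫⁻ y, (∑ m ∈ A, w m (t, x) * f m (t, y)) ^ (1 + θ) ∂ν ≤
      W ^ θ * ∑ m ∈ A, h m t ^ (1 - θ) * (w m (t, x) * V (t, x) ^ θ) := by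
    intro t x
    have hHm : Measurable (fun y => ∑ m ∈ A, w m (t, x) * f m (t, y)) :=
      Finset.measurable_fun_sum _ fun m _ => (hfy m t).const_mul _
    have e1 : ∫⁻ y, ∑ m ∈ A, w m (t, x) * f m (t, y) ∂ν ≤ W * V (t, x) := by
      rw [lintegral_finsetSum _ (fun m _ => (hfy m t).const_mul _)]
      calc ∑ m ∈ A, ∫⁻ y, w m (t, x) * f m (t, y) ∂ν
          = ∑ m ∈ A, w m (t, x) * ∫⁻ y, f m (t, y) ∂ν :=
            Finset.sum_congr rfl fun m _ => lintegral_const_mul _ (hfy m t)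
        _ ≤ ∑ m ∈ A, w m (t, x) * W := Finset.sum_le_sum fun m hm => mul_le_mul' le_rfl (hf1 m hm t)
        _ = W * V (t, x) := by rw [← Finset.sum_mul, mul_comm]
    have e2 : (∫⁻ y, (∑ m ∈ A, w m (t, x) * f m (t, y)) ^ s ∂ν) ^ (1 - θ) ≤
        ∑ m ∈ A, w m (t, x) * h m t ^ (1 - θ) := by
      rw [← hsi]
      refine (mink A (fun m y => w m (t, x) * f m (t, y)) (fun m => (hfy m t).const_mul _) hs1).trans ?_
      refine Finset.sum_le_sum fun m _ => le_of_eq ?_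
      have e3 : ∫⁻ y, (w m (t, x) * f m (t, y)) ^ s ∂ν = w m (t, x) ^ s * h m t := by
        rw [hh]
        simp only
        rw [← lintegral_const_mul _ ((hfy m t).pow_const s)]
        refine lintegral_congr fun y => ?_
        rw [ENNReal.mul_rpow_of_nonneg _ _ hs0.le]
      rw [e3, ENNReal.mul_rpow_of_nonneg _ _ (by positivity), ← ENNReal.rpow_mul, mul_one_div_cancel hs0.ne',
        ENNReal.rpow_one]
    calc ∫⁻ y, (∑ m ∈ A, w m (t, x) * f m (t, y)) ^ (1 + θ) ∂ν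
        ≤ (∫⁻ y, ∑ m ∈ A, w m (t, x) * f m (t, y) ∂ν) ^ θ *
          (∫⁻ y, (∑ m ∈ A, w m (t, x) * f m (t, y)) ^ s ∂ν) ^ (1 - θ) := hold1 hHm h0 h1
      _ ≤ (W * V (t, x)) ^ θ * ∑ m ∈ A, w m (t, x) * h m t ^ (1 - θ) :=
          mul_le_mul' (ENNReal.rpow_le_rpow e1 h0.le) e2
      _ = _ := by
          rw [ENNReal.mul_rpow_of_nonneg _ _ h0.le, mul_assoc, Finset.mul_sum]
          congr 1
          refine Finset.sum_congr rfl fun m _ => ?_
          ring
  -- integration in x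
  have step2 : ∀ t, ∫⁻ x, ∫⁻ y, (∑ m ∈ A, w m (t, x) * f m (t, y)) ^ (1 + θ) ∂ν ∂μ ≤
      W ^ θ * ∑ m ∈ A, D ^ (1 - θ) * (h m t ^ (1 - θ) * k m t ^ θ) := by
    intro t
    have hterm : ∀ m, Measurable (fun x => h m t ^ (1 - θ) * (w m (t, x) * V (t, x) ^ θ)) := fun m =>
      ((hwx m t).mul ((hVx t).pow_const θ)).const_mul _
    calc ∫⁻ x, ∫⁻ y, (∑ m ∈ A, w m (t, x) * f m (t, y)) ^ (1 + θ) ∂ν ∂μ
        ≤ ∫⁻ x, W ^ θ * ∑ m ∈ A, h m t ^ (1 - θ) * (w m (t, x) * V (t, x) ^ θ) ∂μ :=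
          lintegral_mono fun x => step1 t x
      _ = W ^ θ * ∑ m ∈ A, h m t ^ (1 - θ) * ∫⁻ x, w m (t, x) * V (t, x) ^ θ ∂μ := by
          rw [lintegral_const_mul _ (Finset.measurable_fun_sum _ fun m _ => hterm m),
            lintegral_finsetSum _ (fun m _ => hterm m)]
          congr 1
          refine Finset.sum_congr rfl fun m _ => ?_
          have hmm : Measurable (fun x => w m (t, x) * V (t, x) ^ θ) := (hwx m t).mul ((hVx t).pow_const θ)
          exact lintegral_const_mul _ hmm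
      _ ≤ W ^ θ * ∑ m ∈ A, h m t ^ (1 - θ) * (D ^ (1 - θ) * k m t ^ θ) := by
          refine mul_le_mul' le_rfl (Finset.sum_le_sum fun m hm => mul_le_mul' le_rfl ?_)
          have e := ENNReal.lintegral_mul_norm_pow_le (μ := μ) (f := fun x => w m (t, x))
            (g := fun x => w m (t, x) * V (t, x)) (hwx m t).aemeasurable
            ((hwx m t).mul (hVx t)).aemeasurable h1'.le h0.le (by ring)
          refine le_trans (le_of_eq (lintegral_congr fun x => ?_)) (e.trans ?_)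
          · rw [ENNReal.mul_rpow_of_nonneg _ _ h0.le, ← mul_assoc,
              ← ENNReal.rpow_add_of_nonneg _ _ h1'.le h0.le]
            simp
          · exact mul_le_mul' (ENNReal.rpow_le_rpow (hw1 m hm t) h1'.le) le_rfl
      _ = _ := by
          congr 1
          refine Finset.sum_congr rfl fun m _ => ?_
          ring
  -- integration in t
  have hterm : ∀ m, Measurable (fun t => D ^ (1 - θ) * (h m t ^ (1 - θ) * k m t ^ θ)) := fun m =>
    (((hhm m).pow_const _).mul ((hkm m).pow_const θ)).const_mul _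
  calc ∫⁻ t, ∫⁻ x, ∫⁻ y, (∑ m ∈ A, w m (t, x) * f m (t, y)) ^ (1 + θ) ∂ν ∂μ ∂τ
      ≤ ∫⁻ t, W ^ θ * ∑ m ∈ A, D ^ (1 - θ) * (h m t ^ (1 - θ) * k m t ^ θ) ∂τ := lintegral_mono step2
    _ = W ^ θ * ∑ m ∈ A, D ^ (1 - θ) * ∫⁻ t, h m t ^ (1 - θ) * k m t ^ θ ∂τ := by
        rw [lintegral_const_mul _ (Finset.measurable_fun_sum _ fun m _ => hterm m),
          lintegral_finsetSum _ (fun m _ => hterm m)]
        congr 1
        refine Finset.sum_congr rfl fun m _ => ?_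
        have hmm : Measurable (fun t => h m t ^ (1 - θ) * k m t ^ θ) :=
          ((hhm m).pow_const _).mul ((hkm m).pow_const θ)
        exact lintegral_const_mul _ hmm
    _ ≤ W ^ θ * ∑ _m ∈ A, D ^ (1 - θ) * (Q ^ (1 - θ) * P ^ θ) := by
        refine mul_le_mul' le_rfl (Finset.sum_le_sum fun m hm => mul_le_mul' le_rfl ?_)
        refine (ENNReal.lintegral_mul_norm_pow_le (μ := τ) (hhm m).aemeasurable (hkm m).aemeasurable
          h1'.le h0.le (by ring)).trans ?_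
        exact mul_le_mul' (ENNReal.rpow_le_rpow (hF m hm) h1'.le) (ENNReal.rpow_le_rpow (hW m hm) h0.le)
    _ = _ := by
        rw [Finset.sum_const, nsmul_eq_mul]
        ring

end

end Pool.Agent.R251.End
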