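import Pool.Agent.R134.Kak.Induct

set_option autoImplicit false

/-! Logarithmic sums and cardinalities of families of bounded multiplicity. -/

open MeasureTheory Set ENNReal NNReal

namespace Pool.Agent.R251.End

open Pool.Agent.R134.Kak

theorem harm {R : ℝ} (hR : 1 ≤ R) (S : Finset ℕ) (hS : ∀ k ∈ S, (k : ℝ) ≤ R + 1) :
    ∑ k ∈ S, (1 + (k : ℝ))⁻¹ ≤ 3 * (1 + Real.log R) := by
  set n : ℕ := ⌊R + 1⌋₊ + 1 with hn
  have hsub : S ⊆ Finset.range n := by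
    intro k hk
    rw [Finset.mem_range, hn, Nat.lt_succ_iff]
    exact Nat.le_floor (hS k hk)
  have h1 : ∑ k ∈ S, (1 + (k : ℝ))⁻¹ ≤ ∑ k ∈ Finset.range n, (1 + (k : ℝ))⁻¹ :=
    Finset.sum_le_sum_of_subset_of_nonneg hsub fun k _ _ => by positivity
  have h2 : ∑ k ∈ Finset.range n, (1 + (k : ℝ))⁻¹ = (harmonic n : ℝ) := by
    unfold harmonic
    push_cast
    refine Finset.sum_congr rfl fun k _ => ?_
    rw [add_comm]
  have h3 := harmonic_le_one_add_log n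
  have h4 : (n : ℝ) ≤ 3 * R := by
    rw [hn]
    push_cast
    have := Nat.floor_le (by linarith : 0 ≤ R + 1)
    linarith
  have hn0 : (0 : ℝ) < n := by
    rw [hn]
    positivity
  have h5 : Real.log n ≤ Real.log (3 * R) := Real.log_le_log hn0 h4
  have h6 : Real.log (3 * R) = Real.log 3 + Real.log R := Real.log_mul (by norm_num) (by linarith)
  have h7 : Real.log 3 ≤ 2 := by
    have := Real.log_le_sub_one_of_pos (by norm_num : (0 : ℝ) < 3)
    linarith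
  have h8 : 0 ≤ Real.log R := Real.log_nonneg hR
  linarith

theorem logsum {R : ℝ} (hR : 1 ≤ R) (S : Finset ℤ) (c : ℤ) (hS : ∀ h ∈ S, |(c : ℝ) - h| ≤ R + 1) :
    ∑ h ∈ S, (1 + |(c : ℝ) - h|)⁻¹ ≤ 6 * (1 + Real.log R) := by
  classical
  rw [← Finset.sum_filter_add_sum_filter_not S (fun h => h ≤ c)]
  have hcast : ∀ h : ℤ, (((c - h).natAbs : ℕ) : ℝ) = |(c : ℝ) - h| := by
    intro h
    rw [Nat.cast_natAbs]
    push_cast
    rfl
  have key : ∀ S' : Finset ℤ, S' ⊆ S → Set.InjOn (fun h : ℤ => (c - h).natAbs) S' →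
      ∑ h ∈ S', (1 + |(c : ℝ) - h|)⁻¹ ≤ 3 * (1 + Real.log R) := by
    intro S' hS' hinj
    have e : ∑ h ∈ S', (1 + |(c : ℝ) - h|)⁻¹ =
        ∑ k ∈ S'.image (fun h : ℤ => (c - h).natAbs), (1 + (k : ℝ))⁻¹ := by
      rw [Finset.sum_image hinj]
      refine Finset.sum_congr rfl fun h _ => ?_
      rw [hcast]
    rw [e]
    apply harm hR
    intro k hk
    obtain ⟨h, hh, rfl⟩ := Finset.mem_image.1 hk
    rw [hcast]
    exact hS h (hS' hh)
  have h2 := key (S.filter (fun h => h ≤ c)) (Finset.filter_subset _ _) (by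
    intro x hx y hy hxy
    have hx' := (Finset.mem_filter.1 (Finset.mem_coe.1 hx)).2
    have hy' := (Finset.mem_filter.1 (Finset.mem_coe.1 hy)).2
    have : (c - x).natAbs = (c - y).natAbs := hxy
    omega)
  have h3 := key (S.filter (fun h => ¬ h ≤ c)) (Finset.filter_subset _ _) (by
    intro x hx y hy hxy
    have hx' := (Finset.mem_filter.1 (Finset.mem_coe.1 hx)).2
    have hy' := (Finset.mem_filter.1 (Finset.mem_coe.1 hy)).2
    have : (c - x).natAbs = (c - y).natAbs := hxy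
    omega)
  linarith

theorem cls_card {R : ℝ} (hR : 1 ≤ R) (S : Finset ℤ) (hS : ∀ h ∈ S, ∀ h' ∈ S, |(h : ℝ) - h'| ≤ R + 1) :
    (S.card : ℝ) ≤ 3 * R := by
  rcases S.eq_empty_or_nonempty with rfl | hne
  · simp
    linarith
  set a := S.min' hne with ha
  have hsub : S ⊆ Finset.Icc a (a + ⌊R + 1⌋) := by
    intro h hh
    rw [Finset.mem_Icc]
    have h1 : a ≤ h := Finset.min'_le _ _ hh
    refine ⟨h1, ?_⟩
    have h2 := hS h hh a (Finset.min'_mem _ _)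
    have h3 : ((h - a : ℤ) : ℝ) ≤ R + 1 := by
      push_cast
      exact (le_abs_self _).trans h2
    have h4 := Int.le_floor.2 h3
    omega
  have h1 := Finset.card_le_card hsub
  rw [Int.card_Icc] at h1
  have hfl : (0 : ℤ) ≤ ⌊R + 1⌋ := Int.floor_nonneg.2 (by linarith)
  have h2 : ((a + ⌊R + 1⌋ + 1 - a).toNat : ℤ) = ⌊R + 1⌋ + 1 := by
    rw [Int.toNat_of_nonneg (by omega)]
    ring
  have h3 : ((S.card : ℕ) : ℤ) ≤ ⌊R + 1⌋ + 1 := by
    rw [← h2]
    exact_mod_cast h1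
  have h4 : (S.card : ℝ) ≤ (⌊R + 1⌋ : ℝ) + 1 := by exact_mod_cast h3
  have h5 := Int.floor_le (R + 1)
  linarith

theorem floor_dist {a b R : ℝ} (h : |a - b| ≤ R) : |((⌊a⌋ : ℤ) : ℝ) - ((⌊b⌋ : ℤ) : ℝ)| ≤ R + 1 := by
  have g1 := Int.floor_le a
  have g2 := Int.lt_floor_add_one a
  have g3 := Int.floor_le b
  have g4 := Int.lt_floor_add_one b
  rw [abs_le] at h ⊢
  constructor <;> linarith [h.1, h.2]

/-- The radius of the classes. -/
theorem rad_tl {ι : Type} {d : ℕ} {J : Finset ι} {v : ι → Vec (d + 1)} {R : ℝ}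
    (h : ∀ i ∈ J, ∀ j ∈ J, ‖v i - v j‖ ≤ R) (U : Vec (d + 1) ≃ₗᵢ[ℝ] Vec (d + 1)) (c : ℤ) :
    ∀ i ∈ J.filter (fun i => ⌊U (v i) 0⌋ = c), ∀ j ∈ J.filter (fun i => ⌊U (v i) 0⌋ = c),
      ‖tl (U (v i)) - tl (U (v j))‖ ≤ R := by
  intro i hi j hj
  rw [← tl_sub, ← map_sub]
  refine (norm_tl_le _).trans ?_
  rw [U.norm_map]
  exact h i (Finset.mem_filter.1 hi).1 j (Finset.mem_filter.1 hj).1

theorem rad_zero {ι : Type} {d : ℕ} {J : Finset ι} {v : ι → Vec (d + 1)} {R : ℝ}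
    (h : ∀ i ∈ J, ∀ j ∈ J, ‖v i - v j‖ ≤ R) (U : Vec (d + 1) ≃ₗᵢ[ℝ] Vec (d + 1)) :
    ∀ i ∈ J, ∀ j ∈ J, |((⌊U (v i) 0⌋ : ℤ) : ℝ) - ((⌊U (v j) 0⌋ : ℤ) : ℝ)| ≤ R + 1 := by
  intro i hi j hj
  apply floor_dist
  have e : U (v i) 0 - U (v j) 0 = (U (v i - v j)) 0 := by rw [map_sub]; rfl
  rw [e]
  refine (abs_zero_le _).trans ?_
  rw [U.norm_map]
  exact h i hi j hj

theorem card_le {κ : ℕ} : ∀ (d : ℕ) {ι : Type} (J : Finset ι) (v : ι → Vec d) {R : ℝ}, 1 ≤ R →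
    Mult κ d J v → (∀ i ∈ J, ∀ j ∈ J, ‖v i - v j‖ ≤ R) → (J.card : ℝ) ≤ κ * (3 * R) ^ d := by
  classical
  intro d
  induction d with
  | zero =>
    intro ι J v R hR hM _
    rw [pow_zero, mul_one]
    have := hM J (Finset.Subset.refl _) (by
      intro i _ j _
      have : v i - v j = 0 := Subsingleton.elim _ _
      rw [this]
      simp)
    exact_mod_cast this
  | succ d ih =>
    intro ι J v R hR hM hr
    set U : Vec (d + 1) ≃ₗᵢ[ℝ] Vec (d + 1) := LinearIsometryEquiv.refl ℝ _ with hU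
    set S : Finset ℤ := J.image (fun i => ⌊U (v i) 0⌋) with hS
    have hSc : (S.card : ℝ) ≤ 3 * R := by
      apply cls_card hR
      intro h hh h' hh'
      obtain ⟨i, hi, rfl⟩ := Finset.mem_image.1 hh
      obtain ⟨j, hj, rfl⟩ := Finset.mem_image.1 hh'
      exact rad_zero hr U i hi j hj
    have h1 : (J.card : ℝ) = ∑ c ∈ S, ((J.filter (fun i => ⌊U (v i) 0⌋ = c)).card : ℝ) := by
      rw [Finset.card_eq_sum_card_image (fun i => ⌊U (v i) 0⌋) J]
      push_cast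
      rfl
    rw [h1]
    have hR0 : 0 ≤ 3 * R := by linarith
    calc ∑ c ∈ S, ((J.filter (fun i => ⌊U (v i) 0⌋ = c)).card : ℝ)
        ≤ ∑ _c ∈ S, (κ : ℝ) * (3 * R) ^ d := by
          refine Finset.sum_le_sum fun c _ => ?_
          exact ih _ _ hR (hM.class_tl U c) (rad_tl hr U c)
      _ = (S.card : ℝ) * ((κ : ℝ) * (3 * R) ^ d) := by rw [Finset.sum_const, nsmul_eq_mul]
      _ ≤ (3 * R) * ((κ : ℝ) * (3 * R) ^ d) := mul_le_mul_of_nonneg_right hSc (by positivity)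
      _ = _ := by ring

end Pool.Agent.R251.End
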