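import Pool.Agent.R251.End.Log
import Pool.Agent.R251.End.Crit

set_option autoImplicit false

/-! The estimate at the critical exponent for reducible families at scale one. -/

open MeasureTheory Set ENNReal NNReal

namespace Pool.Agent.R251.End

open Pool.Agent.R134.Kak

/-- The sum of the pairwise interactions. -/
theorem sum_pair {ι : Type} {κ : ℕ} {R : ℝ} (hR : 1 ≤ R) (u : ι → ℝ) (J : Finset ι)
    (hM : ∀ c : ℤ, (J.filter (fun i => ⌊u i⌋ = c)).card ≤ κ)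
    (hr : ∀ i ∈ J, ∀ j ∈ J, |((⌊u i⌋ : ℤ) : ℝ) - ((⌊u j⌋ : ℤ) : ℝ)| ≤ R + 1) (i : ι) (hi : i ∈ J) :
    ∑ j ∈ J, (1 + |u i - u j|)⁻¹ ≤ 12 * κ * (1 + Real.log R) := by
  classical
  have hpt : ∀ j, (1 + |u i - u j|)⁻¹ ≤ 2 * (1 + |((⌊u i⌋ : ℤ) : ℝ) - (⌊u j⌋ : ℤ)|)⁻¹ := by
    intro j
    have h2 : 0 < 1 + |u i - u j| := by positivity
    have h3 : 0 < 1 + |((⌊u i⌋ : ℤ) : ℝ) - (⌊u j⌋ : ℤ)| := by positivity
    have h5 : |((⌊u i⌋ : ℤ) : ℝ) - (⌊u j⌋ : ℤ)| ≤ |u i - u j| + 1 := floor_dist le_rfl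
    rw [inv_eq_one_div, inv_eq_one_div, mul_one_div, div_le_div_iff₀ h2 h3]
    have g6 := abs_nonneg (u i - u j)
    linarith
  have h2 := logsum hR (J.image (fun i => ⌊u i⌋)) ⌊u i⌋ (by
    intro h hh
    obtain ⟨j, hj, rfl⟩ := Finset.mem_image.1 hh
    exact hr i hi j hj)
  have hκ : (0 : ℝ) ≤ κ := Nat.cast_nonneg κ
  calc ∑ j ∈ J, (1 + |u i - u j|)⁻¹
      ≤ ∑ j ∈ J, 2 * (1 + |((⌊u i⌋ : ℤ) : ℝ) - (⌊u j⌋ : ℤ)|)⁻¹ := Finset.sum_le_sum fun j _ => hpt j
    _ = 2 * ∑ c ∈ J.image (fun i => ⌊u i⌋), ∑ j ∈ J.filter (fun i => ⌊u i⌋ = c),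
          (1 + |((⌊u i⌋ : ℤ) : ℝ) - (⌊u j⌋ : ℤ)|)⁻¹ := by
        rw [← Finset.mul_sum]
        congr 1
        exact (Finset.sum_fiberwise_of_maps_to (fun i hi => Finset.mem_image_of_mem _ hi) _).symm
    _ ≤ 2 * ∑ c ∈ J.image (fun i => ⌊u i⌋), (κ : ℝ) * (1 + |((⌊u i⌋ : ℤ) : ℝ) - c|)⁻¹ := by
        apply mul_le_mul_of_nonneg_left _ (by positivity)
        refine Finset.sum_le_sum fun c _ => ?_
        rw [Finset.sum_congr rfl (fun j hj => by rw [(Finset.mem_filter.1 hj).2] :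
          ∀ j ∈ J.filter (fun i => ⌊u i⌋ = c), (1 + |((⌊u i⌋ : ℤ) : ℝ) - (⌊u j⌋ : ℤ)|)⁻¹ =
            (1 + |((⌊u i⌋ : ℤ) : ℝ) - c|)⁻¹), Finset.sum_const, nsmul_eq_mul]
        apply mul_le_mul_of_nonneg_right _ (by positivity)
        exact_mod_cast hM c
    _ ≤ 2 * ((κ : ℝ) * (6 * (1 + Real.log R))) := by
        rw [← Finset.mul_sum]
        gcongr
    _ = _ := by ring

/-- The dimension one. -/
theorem base {A L : ℝ} (hA : 0 < A) (hL : 0 ≤ L) (κ : ℕ) :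
    ∃ C : ℝ, 0 < C ∧ ∀ (ι : Type) (J : Finset ι) (v β : ι → Vec 1) (R : ℝ), 1 ≤ R →
      Mult κ 1 J v → (∀ i ∈ J, ∀ j ∈ J, ‖v i - v j‖ ≤ R) →
      ∫⁻ t in Icc (-L) L, ∫⁻ x, (∑ i ∈ J, tub A v β i (t, x)) ^ (2 : ℝ) ≤
        ENNReal.ofReal (C * (R * (1 + Real.log R))) := by
  classical
  set D : ℝ := 2 * A * (4 * L + 8 * A) with hD
  have hD0 : 0 < D := by positivity
  refine ⟨36 * ((κ : ℝ) + 1) ^ 2 * D, by positivity, ?_⟩
  intro ι J v β R hR hM hr
  set u : ι → ℝ := fun i => v i 0 with hu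
  set g : ι → ℝ := fun i => β i 0 with hg
  have hcount : ∀ c : ℤ, (J.filter (fun i => ⌊u i⌋ = c)).card ≤ κ := by
    intro c
    apply hM _ (Finset.filter_subset _ _)
    intro i hi i' hi'
    have e1 : ⌊v i 0⌋ = c := (Finset.mem_filter.1 hi).2
    have e2 : ⌊v i' 0⌋ = c := (Finset.mem_filter.1 hi').2
    have h5 : |v i 0 - v i' 0| < 1 := Int.abs_sub_lt_one_of_floor_eq_floor (e1.trans e2.symm)
    have h6 : tl (v i - v i') = 0 := Subsingleton.elim _ _
    have h7 : (v i - v i') 0 = v i 0 - v i' 0 := rfl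
    rw [norm_sq_split, h6, norm_zero, h7]
    have h8 : (v i 0 - v i' 0) ^ 2 ≤ 1 := by
      rw [← sq_abs]
      have := abs_nonneg (v i 0 - v i' 0)
      nlinarith
    push_cast
    linarith
  have hsum := fun i hi => sum_pair hR u J hcount (rad_zero hr (LinearIsometryEquiv.refl ℝ _)) i hi
  have hcard := card_le 1 J v hR hM hr
  have hm : ∀ c, Measurable (fun p : ℝ × ℝ => stq A u g c p) := fun c => stq_meas A u g c
  have hlog : 0 ≤ Real.log R := Real.log_nonneg hR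
  -- reduction to the line
  have h1 : ∀ t, ∫⁻ x, (∑ i ∈ J, tub A v β i (t, x)) ^ (2 : ℝ) ≤
      ∫⁻ a : ℝ, (∑ i ∈ J, stq A u g i (t, a)) ^ (2 : ℝ) := by
    intro t
    have hmeas : Measurable (fun a : ℝ => (∑ i ∈ J, stq A u g i (t, a)) ^ (2 : ℝ)) := by
      refine (Finset.measurable_fun_sum _ fun i _ => ?_).pow_const (2 : ℝ)
      exact (stq_meas A u g i).comp (measurable_const.prodMk measurable_id)
    calc ∫⁻ x, (∑ i ∈ J, tub A v β i (t, x)) ^ (2 : ℝ)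
        ≤ ∫⁻ x : Vec 1, (∑ i ∈ J, stq A u g i (t, x 0)) ^ (2 : ℝ) := by
          refine lintegral_mono fun x => ENNReal.rpow_le_rpow (Finset.sum_le_sum fun i _ => ?_) (by norm_num)
          unfold tub stq
          by_cases hx : ‖x - (β i + t • v i)‖ ≤ A
          · have h0 := (abs_zero_le _).trans hx
            rw [indicator_of_mem (show (t, x 0) ∈ {p : ℝ × ℝ | |p.2 + p.1 * (-(u i)) - g i| ≤ A} from ?_)]
            · exact indicator_le_self' (fun _ _ => zero_le) _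
            · show |x 0 + t * (-(u i)) - g i| ≤ A
              have e0 : x 0 + t * (-(u i)) - g i = (x - (β i + t • v i)) 0 := by
                show x 0 + t * (-(v i 0)) - β i 0 = x 0 - (β i 0 + t * v i 0)
                ring
              rw [e0]
              exact h0
          · rw [indicator_of_notMem (show (t, x) ∉ {p : ℝ × Vec 1 | ‖p.2 - (β i + p.1 • v i)‖ ≤ A} from hx)]
            exact zero_le
      _ = ∫⁻ a : ℝ, ∫⁻ _y : Vec 0, (∑ i ∈ J, stq A u g i (t, a)) ^ (2 : ℝ) :=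
          lint_split (fun a _ => (∑ i ∈ J, stq A u g i (t, a)) ^ (2 : ℝ)) (hmeas.comp measurable_fst)
      _ = ∫⁻ a : ℝ, (∑ i ∈ J, stq A u g i (t, a)) ^ (2 : ℝ) := by
          refine lintegral_congr fun a => ?_
          rw [volume_euclideanSpace_eq_dirac, lintegral_const, Measure.dirac_apply_of_mem (mem_univ _), mul_one]
  set π : Measure (ℝ × ℝ) := (volume.restrict (Icc (-L) L)).prod volume with hπ
  have hit : ∀ f : ℝ × ℝ → ℝ≥0∞, Measurable f → ∫⁻ t in Icc (-L) L, ∫⁻ x, f (t, x) = ∫⁻ p, f p ∂π := by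
    intro f hf
    rw [hπ, lintegral_prod _ hf.aemeasurable]
  have hsumm : Measurable (fun p : ℝ × ℝ => (∑ c ∈ J, stq A u g c p) ^ (2 : ℝ)) :=
    (Finset.measurable_fun_sum _ fun c _ => hm c).pow_const _
  have hcc : ∀ c c', Measurable (fun p : ℝ × ℝ => stq A u g c p * stq A u g c' p) := fun c c' => (hm c).mul (hm c')
  have h2 : ∫⁻ t in Icc (-L) L, ∫⁻ a : ℝ, (∑ i ∈ J, stq A u g i (t, a)) ^ (2 : ℝ) ≤
      ∑ i ∈ J, ∑ j ∈ J, ENNReal.ofReal (D * (1 + |u i - u j|)⁻¹) := by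
    rw [hit (fun p => (∑ c ∈ J, stq A u g c p) ^ (2 : ℝ)) hsumm]
    have e : ∀ p, (∑ c ∈ J, stq A u g c p) ^ (2 : ℝ) = ∑ i ∈ J, ∑ j ∈ J, stq A u g i p * stq A u g j p := by
      intro p
      rw [ENNReal.rpow_two, sq, Finset.sum_mul_sum]
    simp only [e]
    rw [lintegral_finsetSum _ (fun i _ => Finset.measurable_fun_sum _ fun j _ => hcc i j)]
    refine Finset.sum_le_sum fun i _ => ?_
    rw [lintegral_finsetSum _ (fun j _ => hcc i j)]
    refine Finset.sum_le_sum fun j _ => ?_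
    rw [← hit (fun p => stq A u g i p * stq A u g j p) (hcc i j)]
    exact pair_int' hA hL u g i j
  have h3 : ∑ i ∈ J, ∑ j ∈ J, ENNReal.ofReal (D * (1 + |u i - u j|)⁻¹) =
      ENNReal.ofReal (∑ i ∈ J, ∑ j ∈ J, D * (1 + |u i - u j|)⁻¹) := by
    rw [ENNReal.ofReal_sum_of_nonneg (fun i _ => Finset.sum_nonneg fun j _ => by positivity)]
    refine Finset.sum_congr rfl fun i _ => ?_
    rw [ENNReal.ofReal_sum_of_nonneg (fun j _ => by positivity)]
  refine (lintegral_mono fun t => h1 t).trans (h2.trans ?_)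
  rw [h3]
  apply ENNReal.ofReal_le_ofReal
  have hκ0 : (0 : ℝ) ≤ κ := Nat.cast_nonneg κ
  calc ∑ i ∈ J, ∑ j ∈ J, D * (1 + |u i - u j|)⁻¹
      ≤ ∑ _i ∈ J, D * (12 * κ * (1 + Real.log R)) := by
        refine Finset.sum_le_sum fun i hi => ?_
        rw [← Finset.mul_sum]
        exact mul_le_mul_of_nonneg_left (hsum i hi) hD0.le
    _ = (J.card : ℝ) * (D * (12 * κ * (1 + Real.log R))) := by rw [Finset.sum_const, nsmul_eq_mul]
    _ ≤ (κ * (3 * R) ^ 1) * (D * (12 * κ * (1 + Real.log R))) :=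
        mul_le_mul_of_nonneg_right hcard (by positivity)
    _ = 36 * (κ : ℝ) ^ 2 * D * (R * (1 + Real.log R)) := by ring
    _ ≤ _ := by
        gcongr
        linarith

theorem alg_step {a b c D X l θ : ℝ} (ha : 0 < a) (hb : 0 < b) (hc : 0 < c) (hX : 0 < X) (hl : 0 < l) :
    (a * X) ^ θ * (D ^ (1 - θ) * ((b * (X * l)) ^ (1 - θ) * (c * l) ^ θ)) =
      (a ^ θ * D ^ (1 - θ) * b ^ (1 - θ) * c ^ θ) * (X * l) := by
  rw [Real.mul_rpow ha.le hX.le, Real.mul_rpow hb.le (by positivity), Real.mul_rpow hX.le hl.le,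
    Real.mul_rpow hc.le hl.le]
  have e1 : X ^ θ * X ^ (1 - θ) = X := by
    rw [← Real.rpow_add hX]
    simp
  have e2 : l ^ θ * l ^ (1 - θ) = l := by
    rw [← Real.rpow_add hl]
    simp
  calc a ^ θ * X ^ θ * (D ^ (1 - θ) * (b ^ (1 - θ) * (X ^ (1 - θ) * l ^ (1 - θ)) * (c ^ θ * l ^ θ)))
      = (a ^ θ * D ^ (1 - θ) * b ^ (1 - θ) * c ^ θ) * ((X ^ θ * X ^ (1 - θ)) * (l ^ θ * l ^ (1 - θ))) := by ring
    _ = _ := by rw [e1, e2]

/-- The inductive step. -/
theorem step {K A L : ℝ} (hK : 0 ≤ K) (hA : 0 < A) (hL : 0 ≤ L) (κ : ℕ) (d : ℕ)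
    (ih : ∃ C : ℝ, 0 < C ∧ ∀ (ι : Type) (J : Finset ι) (v β : ι → Vec (d + 1)) (R : ℝ), 1 ≤ R →
      Red K (d + 1) J v β → Mult κ (d + 1) J v → (∀ i ∈ J, ∀ j ∈ J, ‖v i - v j‖ ≤ R) →
      ∫⁻ t in Icc (-L) L, ∫⁻ x, (∑ i ∈ J, tub A v β i (t, x)) ^ (1 + 1 / ((d : ℝ) + 1)) ≤
        ENNReal.ofReal (C * (R ^ (d + 1) * (1 + Real.log R)))) :
    ∃ C : ℝ, 0 < C ∧ ∀ (ι : Type) (J : Finset ι) (v β : ι → Vec (d + 2)) (R : ℝ), 1 ≤ R →
      Red K (d + 2) J v β → Mult κ (d + 2) J v → (∀ i ∈ J, ∀ j ∈ J, ‖v i - v j‖ ≤ R) →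
      ∫⁻ t in Icc (-L) L, ∫⁻ x, (∑ i ∈ J, tub A v β i (t, x)) ^ (1 + 1 / ((d : ℝ) + 2)) ≤
        ENNReal.ofReal (C * (R ^ (d + 2) * (1 + Real.log R))) := by
  classical
  obtain ⟨C₁, hC₁, hI⟩ := ih
  have hA1 : 0 < A + K + L := by positivity
  have hd0 : (0 : ℝ) ≤ d := Nat.cast_nonneg d
  set θ : ℝ := 1 / ((d : ℝ) + 2) with hθ
  have hθ0 : 0 < θ := by positivity
  have hθ1 : θ < 1 := by
    rw [hθ, div_lt_one (by positivity)]
    linarith
  have hθs : 1 / (1 - θ) = 1 + 1 / ((d : ℝ) + 1) := by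
    rw [hθ]
    have h1 : (d : ℝ) + 2 ≠ 0 := by positivity
    have h2 : (d : ℝ) + 1 ≠ 0 := by positivity
    have h3 : 1 - 1 / ((d : ℝ) + 2) = ((d : ℝ) + 1) / (d + 2) := by
      field_simp
      ring
    rw [h3]
    field_simp
    ring
  set V : ℝ := (volume (Metric.closedBall (0 : Vec (d + 1)) A)).toReal with hV
  have hV0 : 0 ≤ V := ENNReal.toReal_nonneg
  have hVt : volume (Metric.closedBall (0 : Vec (d + 1)) A) ≠ ∞ := measure_closedBall_lt_top.ne
  set a : ℝ := (V + 1) * (((κ : ℝ) + 1) * 3 ^ (d + 1)) with ha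
  have ha0 : 0 < a := by positivity
  set D₂ : ℝ := 2 * (A + K + L) * (2 * L + 8 * (A + K + L)) with hD₂
  have hD₂0 : 0 < D₂ := by positivity
  refine ⟨3 * (a ^ θ * (2 * (A + K + L)) ^ (1 - θ) * C₁ ^ (1 - θ) * (6 * D₂) ^ θ), by positivity, ?_⟩
  intro ι J v β R hR hRed hM hr
  obtain ⟨U, hU, hR'⟩ := hRed
  have hR0 : 0 < R := by linarith
  have hlog : 0 ≤ Real.log R := Real.log_nonneg hR
  have hl0 : 0 < 1 + Real.log R := by linarith
  set cl : ι → ℤ := fun i => ⌊U (v i) 0⌋ with hcl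
  set g : ℤ → ℝ := pick J cl (fun i => U (β i) 0) with hg
  set v' : ι → Vec (d + 1) := fun i => tl (U (v i)) with hv'
  set β' : ι → Vec (d + 1) := fun i => tl (U (β i)) with hβ'
  set S : Finset ℤ := J.image cl with hS
  set G : ℤ → ℝ × Vec (d + 1) → ℝ≥0∞ := fun c p => ∑ i ∈ J.filter (fun i => cl i = c), tub A v' β' i p with hG
  have hGm : ∀ c, Measurable (G c) := fun c => Finset.measurable_fun_sum _ fun i _ => tub_meas A v' β' i
  have hSr : ∀ h ∈ S, ∀ h' ∈ S, |(h : ℝ) - h'| ≤ R + 1 := by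
    intro h hh h' hh'
    obtain ⟨i, hi, rfl⟩ := Finset.mem_image.1 hh
    obtain ⟨j, hj, rfl⟩ := Finset.mem_image.1 hh'
    exact rad_zero hr U i hi j hj
  have hSc : (S.card : ℝ) ≤ 3 * R := cls_card hR S hSr
  have hstep := crit_step (τ := volume.restrict (Icc (-L) L)) (μ := (volume : Measure ℝ))
    (ν := (volume : Measure (Vec (d + 1)))) S (stp (A + K + L) g) G
    (stp_meas (A + K + L) g) hGm hθ0 hθ1
    (D := ENNReal.ofReal (2 * (A + K + L))) (W := ENNReal.ofReal (a * R ^ (d + 1)))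
    (P := ENNReal.ofReal (6 * D₂ * (1 + Real.log R)))
    (Q := ENNReal.ofReal (C₁ * (R ^ (d + 1) * (1 + Real.log R))))
    (fun m _ t => by rw [stp_int])
    (fun m _ t => by
      show ∫⁻ y, ∑ i ∈ J.filter (fun i => cl i = m), tub A v' β' i (t, y) ≤ _
      have htm : ∀ i, Measurable (fun y => tub A v' β' i (t, y)) := fun i =>
        (tub_meas A v' β' i).comp (measurable_const.prodMk measurable_id)
      rw [lintegral_finsetSum _ (fun i _ => htm i)]
      simp only [tub_int]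
      rw [Finset.sum_const, nsmul_eq_mul, ← ENNReal.ofReal_toReal hVt, ← ENNReal.ofReal_natCast,
        ← ENNReal.ofReal_mul (Nat.cast_nonneg _)]
      apply ENNReal.ofReal_le_ofReal
      have hc := card_le (d + 1) _ v' hR (hM.class_tl U m) (rad_tl hr U m)
      have hκ0 : (0 : ℝ) ≤ κ := Nat.cast_nonneg κ
      calc ((J.filter (fun i => cl i = m)).card : ℝ) * V ≤ (κ * (3 * R) ^ (d + 1)) * V :=
            mul_le_mul_of_nonneg_right hc hV0
        _ ≤ ((κ + 1) * (3 * R) ^ (d + 1)) * (V + 1) := by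
            gcongr <;> linarith
        _ = a * R ^ (d + 1) := by rw [ha, mul_pow]; ring)
    (fun m hm => by
      have hms : ∀ m', Measurable (fun p : ℝ × ℝ => stp (A + K + L) g m p * stp (A + K + L) g m' p) := fun m' =>
        (stp_meas _ g m).mul (stp_meas _ g m')
      calc ∫⁻ t in Icc (-L) L, ∫⁻ x, stp (A + K + L) g m (t, x) * ∑ m' ∈ S, stp (A + K + L) g m' (t, x)
          = ∑ m' ∈ S, ∫⁻ t in Icc (-L) L, ∫⁻ x, stp (A + K + L) g m (t, x) * stp (A + K + L) g m' (t, x) := by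
            have e1 : ∀ t, ∫⁻ x, stp (A + K + L) g m (t, x) * ∑ m' ∈ S, stp (A + K + L) g m' (t, x) =
                ∑ m' ∈ S, ∫⁻ x, stp (A + K + L) g m (t, x) * stp (A + K + L) g m' (t, x) := by
              intro t
              simp only [Finset.mul_sum]
              exact lintegral_finsetSum _ (fun m' _ => (hms m').comp (measurable_const.prodMk measurable_id))
            simp only [e1]
            exact lintegral_finsetSum _ (fun m' _ =>
              Measurable.lintegral_prod_right' (f := fun p : ℝ × ℝ => stp (A + K + L) g m p * stp (A + K + L) g m' p)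
                (hms m'))
        _ ≤ ∑ m' ∈ S, ENNReal.ofReal (D₂ * (1 + |(m : ℝ) - m'|)⁻¹) :=
            Finset.sum_le_sum fun m' _ => pair_int hA1 hL g m m'
        _ = ENNReal.ofReal (∑ m' ∈ S, D₂ * (1 + |(m : ℝ) - m'|)⁻¹) :=
            (ENNReal.ofReal_sum_of_nonneg (fun m' _ => by positivity)).symm
        _ ≤ _ := by
            apply ENNReal.ofReal_le_ofReal
            rw [← Finset.mul_sum]
            have := logsum hR S m (hSr m hm)
            calc D₂ * ∑ m' ∈ S, (1 + |(m : ℝ) - m'|)⁻¹ ≤ D₂ * (6 * (1 + Real.log R)) :=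
                  mul_le_mul_of_nonneg_left this hD₂0.le
              _ = _ := by ring)
    (fun m _ => by
      rw [hθs]
      exact hI ι _ v' β' R hR (hR' m) (hM.class_tl U m) (rad_tl hr U m))
  have hpt : ∀ t ∈ Icc (-L) L, ∫⁻ x, (∑ i ∈ J, tub A v β i (t, x)) ^ (1 + θ) ≤
      ∫⁻ a : ℝ, ∫⁻ y, (∑ c ∈ S, stp (A + K + L) g c (t, a) * G c (t, y)) ^ (1 + θ) := by
    intro t ht
    have ht' : |t| ≤ L := abs_le.2 ht
    have hmeas : Measurable (fun p : ℝ × Vec (d + 1) =>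
        (∑ c ∈ S, stp (A + K + L) g c (t, p.1) * G c (t, p.2)) ^ (1 + θ)) := by
      refine (Finset.measurable_fun_sum _ fun c _ => ?_).pow_const (1 + θ)
      exact ((stp_meas _ g c).comp (measurable_const.prodMk measurable_fst)).mul
        ((hGm c).comp (measurable_const.prodMk measurable_snd))
    rw [← lint_rot_split U (fun a y => (∑ c ∈ S, stp (A + K + L) g c (t, a) * G c (t, y)) ^ (1 + θ)) hmeas]
    refine lintegral_mono fun x => ENNReal.rpow_le_rpow ?_ (by positivity)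
    calc ∑ i ∈ J, tub A v β i (t, x)
        ≤ ∑ i ∈ J, stp (A + K + L) g (cl i) (t, U x 0) * tub A v' β' i (t, tl (U x)) :=
          Finset.sum_le_sum fun i hi => tub_le U hU hi ht' x
      _ = ∑ c ∈ S, ∑ i ∈ J.filter (fun i => cl i = c),
            stp (A + K + L) g (cl i) (t, U x 0) * tub A v' β' i (t, tl (U x)) :=
          (Finset.sum_fiberwise_of_maps_to (fun i hi => Finset.mem_image_of_mem _ hi) _).symm
      _ = ∑ c ∈ S, stp (A + K + L) g c (t, U x 0) * G c (t, tl (U x)) := by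
          refine Finset.sum_congr rfl fun c _ => ?_
          show _ = stp (A + K + L) g c (t, U x 0) * ∑ i ∈ J.filter (fun i => cl i = c), tub A v' β' i (t, tl (U x))
          rw [Finset.mul_sum]
          refine Finset.sum_congr rfl fun i hi => ?_
          rw [(Finset.mem_filter.1 hi).2]
  refine (setLIntegral_mono' measurableSet_Icc hpt).trans (hstep.trans ?_)
  have hX : 0 < R ^ (d + 1) := by positivity
  rw [ENNReal.ofReal_rpow_of_pos (by positivity), ENNReal.ofReal_rpow_of_pos (by positivity),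
    ENNReal.ofReal_rpow_of_pos (by positivity), ENNReal.ofReal_rpow_of_pos (by positivity),
    ← ENNReal.ofReal_mul (by positivity), ← ENNReal.ofReal_mul (by positivity),
    ← ENNReal.ofReal_mul (by positivity), ← ENNReal.ofReal_natCast, ← ENNReal.ofReal_mul (Nat.cast_nonneg _)]
  apply ENNReal.ofReal_le_ofReal
  rw [alg_step ha0 hC₁ (by positivity) hX hl0]
  calc (S.card : ℝ) * ((a ^ θ * (2 * (A + K + L)) ^ (1 - θ) * C₁ ^ (1 - θ) * (6 * D₂) ^ θ) *
        (R ^ (d + 1) * (1 + Real.log R)))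
      ≤ (3 * R) * ((a ^ θ * (2 * (A + K + L)) ^ (1 - θ) * C₁ ^ (1 - θ) * (6 * D₂) ^ θ) *
        (R ^ (d + 1) * (1 + Real.log R))) := mul_le_mul_of_nonneg_right hSc (by positivity)
    _ = _ := by ring

/-- **The estimate at the critical exponent for reducible families at scale one.** -/
theorem crit_main {K A L : ℝ} (hK : 0 ≤ K) (hA : 0 < A) (hL : 0 ≤ L) (κ : ℕ) (d : ℕ) :
    ∃ C : ℝ, 0 < C ∧ ∀ (ι : Type) (J : Finset ι) (v β : ι → Vec (d + 1)) (R : ℝ), 1 ≤ R →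
      Red K (d + 1) J v β → Mult κ (d + 1) J v → (∀ i ∈ J, ∀ j ∈ J, ‖v i - v j‖ ≤ R) →
      ∫⁻ t in Icc (-L) L, ∫⁻ x, (∑ i ∈ J, tub A v β i (t, x)) ^ (1 + 1 / ((d : ℝ) + 1)) ≤
        ENNReal.ofReal (C * (R ^ (d + 1) * (1 + Real.log R))) := by
  induction d with
  | zero =>
    obtain ⟨C, hC, h⟩ := base hA hL κ
    refine ⟨C, hC, ?_⟩
    intro ι J v β R hR _ hM hr
    have e : (1 : ℝ) + 1 / (((0 : ℕ) : ℝ) + 1) = 2 := by norm_num
    rw [e]
    have e2 : R ^ (0 + 1) = R := by rw [zero_add, pow_one]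
    rw [e2]
    exact h ι J v β R hR hM hr
  | succ d ih =>
    have e : (((d + 1 : ℕ) : ℝ) + 1) = (d : ℝ) + 2 := by push_cast; ring
    rw [e]
    exact step hK hA hL κ d ih

end Pool.Agent.R251.End
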