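import Pool.Agent.H810R3.Tub.Compare

set_option autoImplicit false

/-! The lower bound for the centred family at the critical exponent. -/

open MeasureTheory Set ENNReal NNReal Metric

namespace Pool.Agent.R251.End

open Pool.Agent.H810R3.Tub (Space box nor Fb Fb_measurable wv wv_pos ball_sub_box frame frame_coe
  norm_sq_frame norm_e finrank_space box_closed lower)

variable {d : ℕ}

/-- A piece of a centred box. -/
def pc (N : ℝ) (e : Space d) (f : Fin d → Space d) (x y : ℝ) : Set (Space d) :=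
  {z | inner ℝ e z ∈ Icc x y ∧ ∀ j, |inner ℝ (f j) z| ≤ N / 2}

theorem vol_pc {N x y : ℝ} (hN : 0 ≤ N) (hxy : x ≤ y) {e : Space d} {f : Fin d → Space d}
    (h : Orthonormal ℝ (Fin.cons e f : Fin (d + 1) → Space d)) :
    volume (pc N e f x y) = ENNReal.ofReal ((y - x) * N ^ d) := by
  set l : Fin (d + 1) → ℝ := Fin.cons x (fun _ => -(N / 2)) with hl
  set r : Fin (d + 1) → ℝ := Fin.cons y (fun _ => N / 2) with hr
  have e2 : pc N e f x y = (fun y => WithLp.ofLp ((frame h).repr y)) ⁻¹'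
      (Set.univ.pi fun i => Icc (l i) (r i)) := by
    ext z
    rw [mem_preimage, Set.mem_univ_pi]
    simp only [OrthonormalBasis.repr_apply_apply, frame_coe]
    rw [Fin.forall_fin_succ]
    simp only [hr, hl, Fin.cons_zero, Fin.cons_succ]
    show inner ℝ e z ∈ Icc x y ∧ (∀ j, |inner ℝ (f j) z| ≤ N / 2) ↔ _
    simp only [mem_Icc, ← abs_le]
  have hmp : MeasurePreserving (fun y => WithLp.ofLp ((frame h).repr y)) volume volume :=
    (PiLp.volume_preserving_ofLp (Fin (d + 1))).comp (frame h).measurePreserving_repr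
  rw [e2, hmp.measure_preimage (MeasurableSet.univ_pi fun i => measurableSet_Icc).nullMeasurableSet,
    volume_pi_pi]
  simp only [Real.volume_Icc]
  rw [Fin.prod_univ_succ]
  simp only [hr, hl, Fin.cons_zero, Fin.cons_succ, Finset.prod_const, Finset.card_univ, Fintype.card_fin]
  have e4 : N / 2 - -(N / 2) = N := by ring
  rw [e4, ← ENNReal.ofReal_pow hN, ← ENNReal.ofReal_mul (by linarith)]

theorem pc_sub_box {N x y : ℝ} (hx : 0 ≤ x) (hy : y ≤ N ^ 2 / 2) {e : Space d} {f : Fin d → Space d} :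
    pc N e f x y ⊆ box N e f 0 := by
  intro z hz
  obtain ⟨h1, h2⟩ := hz
  refine ⟨?_, fun j => ?_⟩
  · rw [sub_zero, abs_le]
    constructor <;> linarith [h1.1, h1.2]
  · rw [sub_zero]
    exact h2 j

/-- The shells. -/
def sh (d : ℕ) (ρ : ℝ) : Set (Space d) := {z | ρ ≤ ‖z‖ ∧ ‖z‖ < 4 * ρ}

theorem sh_meas (ρ : ℝ) : MeasurableSet (sh d ρ) :=
  (measurableSet_le measurable_const measurable_norm).inter (measurableSet_lt measurable_norm measurable_const)

theorem pc_sub_sh {N ρ : ℝ} (hN : 0 < N) (hd : 1 ≤ d) (hρ : d * N ≤ ρ) {e : Space d} {f : Fin d → Space d}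
    (h : Orthonormal ℝ (Fin.cons e f : Fin (d + 1) → Space d)) : pc N e f ρ (2 * ρ) ⊆ sh d ρ := by
  intro z hz
  obtain ⟨h1, h2⟩ := hz
  have hd1 : (1 : ℝ) ≤ d := by exact_mod_cast hd
  have hρ0 : 0 < ρ := by nlinarith
  constructor
  · have h3 := abs_real_inner_le_norm e z
    rw [norm_e h, one_mul] at h3
    exact h1.1.trans ((le_abs_self _).trans h3)
  · have h3 := norm_sq_frame h z
    have h4 : ∑ j, (inner ℝ (f j) z : ℝ) ^ 2 ≤ d * (N / 2) ^ 2 := by
      calc ∑ j, (inner ℝ (f j) z : ℝ) ^ 2 ≤ ∑ _j : Fin d, (N / 2) ^ 2 := by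
            refine Finset.sum_le_sum fun j _ => ?_
            rw [← sq_abs]
            exact pow_le_pow_left₀ (abs_nonneg _) (h2 j) 2
        _ = _ := by rw [Finset.sum_const, Finset.card_univ, Fintype.card_fin, nsmul_eq_mul]
    have h5 : (inner ℝ e z : ℝ) ^ 2 ≤ (2 * ρ) ^ 2 := pow_le_pow_left₀ (by linarith [h1.1]) h1.2 2
    have h6 : d * (N / 2) ^ 2 ≤ ρ ^ 2 := by
      have h7 : (d * N) ^ 2 ≤ ρ ^ 2 := pow_le_pow_left₀ (by positivity) hρ 2
      have h8 : (d : ℝ) * (N / 2) ^ 2 ≤ (d * N) ^ 2 := by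
        have h9 : (d : ℝ) ≤ d ^ 2 := by nlinarith
        nlinarith [mul_le_mul_of_nonneg_right h9 (sq_nonneg N), sq_nonneg N]
      linarith
    have h7 : ‖z‖ ^ 2 < (4 * ρ) ^ 2 := by
      rw [h3]
      nlinarith
    exact lt_of_pow_lt_pow_left₀ 2 (by positivity) h7

/-- The contribution of a shell. -/
theorem shell_low {ι : Type} [Fintype ι] [Nonempty ι] {N ρ : ℝ} (hN : 1 ≤ N) (hd : 1 ≤ d) (hρ : d * N ≤ ρ)
    (hρ2 : 2 * ρ ≤ N ^ 2 / 2) (ω : ι → EuclideanSpace ℝ (Fin d)) (f : ι → Fin d → Space d)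
    (hf : ∀ i, Orthonormal ℝ (Fin.cons (nor (ω i)) (f i) : Fin (d + 1) → Space d)) :
    ENNReal.ofReal ((Fintype.card ι : ℝ) ^ (1 + 1 / (d : ℝ)) * N ^ (d + 1) *
      ((4 ^ (d + 1) * wv d) ^ (1 / (d : ℝ)))⁻¹) ≤
      ∫⁻ y in sh d ρ, Fb N ω f (fun _ => 0) y ^ (1 + 1 / (d : ℝ)) := by
  have hN0 : 0 < N := by linarith
  have hd1 : (1 : ℝ) ≤ d := by exact_mod_cast hd
  have hd0 : (0 : ℝ) < d := by linarith
  have hρ0 : 0 < ρ := by nlinarith
  set c : ℝ := (Fintype.card ι : ℝ) with hc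
  have hc0 : 0 < c := by
    rw [hc]
    have := Fintype.card_pos (α := ι)
    exact_mod_cast this
  have hw0 := wv_pos d
  have hFm := Fb_measurable N ω f (fun _ => (0 : Space d))
  have h1 : ENNReal.ofReal (c * (ρ * N ^ d)) ≤ ∫⁻ y in sh d ρ, Fb N ω f (fun _ => 0) y := by
    have e1 : ∫⁻ y in sh d ρ, Fb N ω f (fun _ => 0) y =
        ∑ i, ∫⁻ y in sh d ρ, (box N (nor (ω i)) (f i) 0).indicator (fun _ => (1 : ℝ≥0∞)) y := by
      unfold Fb
      exact lintegral_finsetSum _ (fun i _ => measurable_const.indicator (box_closed _ _ _ _).measurableSet)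
    rw [e1]
    have e2 : ENNReal.ofReal (c * (ρ * N ^ d)) = ∑ _i : ι, ENNReal.ofReal (ρ * N ^ d) := by
      rw [Finset.sum_const, Finset.card_univ, nsmul_eq_mul, ENNReal.ofReal_mul hc0.le, hc,
        ENNReal.ofReal_natCast]
    rw [e2]
    refine Finset.sum_le_sum fun i _ => ?_
    rw [lintegral_indicator (box_closed _ _ _ _).measurableSet, setLIntegral_const, one_mul,
      Measure.restrict_apply (box_closed _ _ _ _).measurableSet]
    have e3 : ρ = 2 * ρ - ρ := by ring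
    calc ENNReal.ofReal (ρ * N ^ d) = volume (pc N (nor (ω i)) (f i) ρ (2 * ρ)) := by
          rw [vol_pc hN0.le (by linarith) (hf i)]
          congr 2
      _ ≤ _ := measure_mono (subset_inter (pc_sub_box hρ0.le hρ2) (pc_sub_sh hN0 hd hρ (hf i)))
  have hp : (1 : ℝ) ≤ 1 + 1 / (d : ℝ) := by
    have : 0 < 1 / (d : ℝ) := by positivity
    linarith
  have h2 := lower (μ := (volume : Measure (Space d)).restrict (sh d ρ)) hFm (B := univ) MeasurableSet.univ
    (fun a ha => absurd (mem_univ a) ha) hp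
  rw [Measure.restrict_apply_univ] at h2
  have e5 : (1 : ℝ) + 1 / (d : ℝ) - 1 = 1 / d := by ring
  rw [e5] at h2
  have hwe : volume (ball (0 : Space d) 1) = ENNReal.ofReal (wv d) := by
    rw [wv, ENNReal.ofReal_toReal measure_ball_lt_top.ne]
  have h3 : volume (sh d ρ) ≤ ENNReal.ofReal ((4 * ρ) ^ (d + 1) * wv d) := by
    calc volume (sh d ρ) ≤ volume (ball (0 : Space d) (4 * ρ)) := by
          apply measure_mono
          intro z hz
          rw [mem_ball, dist_zero_right]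
          exact hz.2
      _ = _ := by
          rw [Measure.addHaar_ball_of_pos _ _ (by positivity), finrank_space, hwe,
            ← ENNReal.ofReal_mul (by positivity)]
  have hv0 : 0 < (4 * ρ) ^ (d + 1) * wv d := by positivity
  have h4 : (ENNReal.ofReal (c * (ρ * N ^ d))) ^ (1 + 1 / (d : ℝ)) ≤
      (∫⁻ y in sh d ρ, Fb N ω f (fun _ => 0) y ^ (1 + 1 / (d : ℝ))) *
        (ENNReal.ofReal ((4 * ρ) ^ (d + 1) * wv d)) ^ (1 / (d : ℝ)) :=
    (ENNReal.rpow_le_rpow h1 (by linarith)).trans (h2.trans (mul_le_mul' le_rfl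
      (ENNReal.rpow_le_rpow h3 (by positivity))))
  rw [ENNReal.ofReal_rpow_of_pos (by positivity), ENNReal.ofReal_rpow_of_pos hv0] at h4
  have hv1 : 0 < ((4 * ρ) ^ (d + 1) * wv d) ^ (1 / (d : ℝ)) := Real.rpow_pos_of_pos hv0 _
  have h5 := ENNReal.div_le_of_le_mul h4
  rw [← ENNReal.ofReal_div_of_pos hv1] at h5
  refine le_trans (le_of_eq ?_) h5
  congr 1
  -- the algebra
  have g1 : (c * (ρ * N ^ d)) ^ (1 + 1 / (d : ℝ)) = c ^ (1 + 1 / (d : ℝ)) * (ρ ^ (1 + 1 / (d : ℝ)) * N ^ (d + 1)) := by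
    rw [Real.mul_rpow hc0.le (by positivity), Real.mul_rpow hρ0.le (by positivity), ← Real.rpow_natCast N d,
      ← Real.rpow_mul hN0.le]
    congr 2
    rw [← Real.rpow_natCast N (d + 1)]
    congr 1
    push_cast
    field_simp
  have g2 : ((4 * ρ) ^ (d + 1) * wv d) ^ (1 / (d : ℝ)) = ρ ^ (1 + 1 / (d : ℝ)) * (4 ^ (d + 1) * wv d) ^ (1 / (d : ℝ)) := by
    have : (4 * ρ) ^ (d + 1) * wv d = ρ ^ (d + 1) * (4 ^ (d + 1) * wv d) := by rw [mul_pow]; ring
    rw [this, Real.mul_rpow (by positivity) (by positivity), ← Real.rpow_natCast ρ (d + 1), ← Real.rpow_mul hρ0.le]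
    congr 2
    push_cast
    field_simp
  rw [g1, g2]
  have hρp : 0 < ρ ^ (1 + 1 / (d : ℝ)) := Real.rpow_pos_of_pos hρ0 _
  field_simp

/-- **The lower bound for the centred family at the critical exponent.** -/
theorem centred_low (hd : 1 ≤ d) : ∃ c : ℝ, 0 < c ∧ ∀ (ι : Type) [Fintype ι] [Nonempty ι] (N : ℝ), 1 ≤ N →
    ∀ (ω : ι → EuclideanSpace ℝ (Fin d)) (f : ι → Fin d → Space d),
    (∀ i, Orthonormal ℝ (Fin.cons (nor (ω i)) (f i) : Fin (d + 1) → Space d)) →
    ENNReal.ofReal (c * ((Fintype.card ι : ℝ) ^ (1 + 1 / (d : ℝ)) * N ^ (d + 1)) * (1 + Real.log N)) ≤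
      ∫⁻ y, Fb N ω f (fun _ => 0) y ^ (1 + 1 / (d : ℝ)) := by
  have hd1 : (1 : ℝ) ≤ d := by exact_mod_cast hd
  have hd0 : (0 : ℝ) < d := by linarith
  have hw0 := wv_pos d
  set c₂ : ℝ := ((4 ^ (d + 1) * wv d) ^ (1 / (d : ℝ)))⁻¹ with hc₂
  have hc₂0 : 0 < c₂ := inv_pos.2 (Real.rpow_pos_of_pos (by positivity) _)
  set c₃ : ℝ := (1 / 2) ^ (d + 1) * wv d with hc₃
  have hc₃0 : 0 < c₃ := by positivity
  have hlogd : 0 ≤ Real.log d := Real.log_nonneg hd1
  have hlog4 : 0 < Real.log 4 := Real.log_pos (by norm_num)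
  set C : ℝ := 1 + Real.log d + Real.log 4 with hC
  have hC0 : 0 < C := by positivity
  refine ⟨min c₂ c₃ / (2 * C), by positivity, ?_⟩
  intro ι _ _ N hN ω f hf
  have hN0 : 0 < N := by linarith
  set c : ℝ := (Fintype.card ι : ℝ) with hc
  have hc0 : 0 < c := by
    rw [hc]
    have := Fintype.card_pos (α := ι)
    exact_mod_cast this
  set X : ℝ := c ^ (1 + 1 / (d : ℝ)) * N ^ (d + 1) with hX
  have hX0 : 0 < X := by
    have := Real.rpow_pos_of_pos hc0 (1 + 1 / (d : ℝ))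
    positivity
  set m : ℕ := ⌊N / d⌋₊ with hm
  set K : ℕ := Nat.log 4 m with hK
  have hmN : (m : ℝ) ≤ N / d := Nat.floor_le (by positivity)
  -- the bound for the logarithm
  have hlogN : Real.log N ≤ Real.log d + (K + 1) * Real.log 4 := by
    have h1 : m < 4 ^ (K + 1) := Nat.lt_pow_succ_log_self (by norm_num) _
    have h2 : (m : ℝ) + 1 ≤ 4 ^ (K + 1) := by exact_mod_cast h1
    have h3 : N / d < m + 1 := Nat.lt_floor_add_one _
    have h4 : N ≤ d * 4 ^ (K + 1) := by
      have h5 : N / d ≤ 4 ^ (K + 1) := by linarith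
      rw [div_le_iff₀ hd0] at h5
      linarith
    have h6 := Real.log_le_log hN0 h4
    rw [Real.log_mul hd0.ne' (by positivity), Real.log_pow] at h6
    push_cast at h6
    linarith
  have hK0 : (0 : ℝ) ≤ K := Nat.cast_nonneg K
  have hlog1 : 1 + Real.log N ≤ C * (K + 1) := by
    rw [hC]
    nlinarith [mul_nonneg hlogd hK0]
  set I : ℝ≥0∞ := ∫⁻ y, Fb N ω f (fun _ => 0) y ^ (1 + 1 / (d : ℝ)) with hI
  -- the ball
  have hball : ENNReal.ofReal (c₃ * X) ≤ I := by
    have h1 : ∀ y ∈ ball (0 : Space d) (N / 2), Fb N ω f (fun _ => (0 : Space d)) y = ENNReal.ofReal c := by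
      intro y hy
      unfold Fb
      rw [Finset.sum_congr rfl (fun i _ => indicator_of_mem (ball_sub_box hN (hf i) hy) _)]
      simp [hc]
    have hwe : volume (ball (0 : Space d) 1) = ENNReal.ofReal (wv d) := by
      rw [wv, ENNReal.ofReal_toReal measure_ball_lt_top.ne]
    have hbv : volume (ball (0 : Space d) (N / 2)) = ENNReal.ofReal ((N / 2) ^ (d + 1) * wv d) := by
      rw [Measure.addHaar_ball_of_pos _ _ (by positivity), finrank_space, hwe,
        ← ENNReal.ofReal_mul (by positivity)]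
    calc ENNReal.ofReal (c₃ * X) = ENNReal.ofReal (c ^ (1 + 1 / (d : ℝ))) * volume (ball (0 : Space d) (N / 2)) := by
          rw [hbv, ← ENNReal.ofReal_mul (by positivity)]
          congr 1
          have e7 : (N / 2) ^ (d + 1) = (1 / 2) ^ (d + 1) * N ^ (d + 1) := by
            rw [← mul_pow]
            congr 1
            ring
          rw [hc₃, hX, e7]
          ring
      _ = ∫⁻ _ in ball (0 : Space d) (N / 2), ENNReal.ofReal (c ^ (1 + 1 / (d : ℝ))) := by
          rw [setLIntegral_const]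
      _ = ∫⁻ y in ball (0 : Space d) (N / 2), Fb N ω f (fun _ => 0) y ^ (1 + 1 / (d : ℝ)) := by
          refine setLIntegral_congr_fun measurableSet_ball fun y hy => ?_
          rw [h1 y hy, ENNReal.ofReal_rpow_of_pos hc0]
      _ ≤ I := setLIntegral_le_lintegral _ _
  -- the shells
  have hshell : ENNReal.ofReal (K * (c₂ * X)) ≤ I := by
    set ρ : ℕ → ℝ := fun k => 4 ^ k * (d * N) with hρ
    have hdis : Set.PairwiseDisjoint ((Finset.range K : Finset ℕ) : Set ℕ) (fun k => sh d (ρ k)) := by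
      have key : ∀ k l, k < l → Disjoint (sh d (ρ k)) (sh d (ρ l)) := by
        intro k l hkl
        rw [Set.disjoint_left]
        intro z hz hz'
        have h1 : ‖z‖ < 4 * ρ k := hz.2
        have h2 : ρ l ≤ ‖z‖ := hz'.1
        have h3 : 4 * ρ k ≤ ρ l := by
          rw [hρ]
          show 4 * (4 ^ k * (d * N)) ≤ 4 ^ l * (d * N)
          have h4 : (4 : ℝ) ^ (k + 1) ≤ 4 ^ l := pow_le_pow_right₀ (by norm_num) hkl
          calc 4 * (4 ^ k * (d * N)) = 4 ^ (k + 1) * (d * N) := by ring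
            _ ≤ _ := mul_le_mul_of_nonneg_right h4 (by positivity)
        linarith
      intro k _ l _ hkl
      rcases lt_or_gt_of_ne hkl with h | h
      · exact key k l h
      · exact (key l k h).symm
    have h1 : ∀ k ∈ Finset.range K, ENNReal.ofReal (c₂ * X) ≤
        ∫⁻ y in sh d (ρ k), Fb N ω f (fun _ => 0) y ^ (1 + 1 / (d : ℝ)) := by
      intro k hk
      rw [Finset.mem_range] at hk
      have hρk : d * N ≤ ρ k := by
        rw [hρ]
        show d * N ≤ 4 ^ k * (d * N)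
        have : (1 : ℝ) ≤ 4 ^ k := one_le_pow₀ (by norm_num)
        nlinarith [mul_pos hd0 hN0]
      have hm0 : m ≠ 0 := by
        intro h
        rw [hK, h, Nat.log_zero_right] at hk
        omega
      have h2 : (4 : ℕ) ^ (k + 1) ≤ m := (Nat.pow_le_pow_right (by norm_num) hk).trans (Nat.pow_log_le_self 4 hm0)
      have h3 : (4 : ℝ) ^ (k + 1) ≤ N / d := by
        have : ((4 ^ (k + 1) : ℕ) : ℝ) ≤ m := by exact_mod_cast h2
        push_cast at this
        linarith
      rw [le_div_iff₀ hd0] at h3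
      have hρ2 : 2 * ρ k ≤ N ^ 2 / 2 := by
        rw [hρ]
        show 2 * (4 ^ k * (d * N)) ≤ N ^ 2 / 2
        have h4 : 4 ^ (k + 1) * (d : ℝ) * N ≤ N * N := mul_le_mul_of_nonneg_right h3 hN0.le
        rw [pow_succ] at h4
        nlinarith
      refine le_trans (le_of_eq ?_) (shell_low hN hd hρk hρ2 ω f hf)
      congr 1
      rw [← hc, hX]
      ring
    calc ENNReal.ofReal (K * (c₂ * X)) = ∑ _k ∈ Finset.range K, ENNReal.ofReal (c₂ * X) := by
          rw [Finset.sum_const, Finset.card_range, nsmul_eq_mul, ENNReal.ofReal_mul hK0, ENNReal.ofReal_natCast]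
      _ ≤ ∑ k ∈ Finset.range K, ∫⁻ y in sh d (ρ k), Fb N ω f (fun _ => 0) y ^ (1 + 1 / (d : ℝ)) :=
          Finset.sum_le_sum h1
      _ = ∫⁻ y in ⋃ k ∈ Finset.range K, sh d (ρ k), Fb N ω f (fun _ => 0) y ^ (1 + 1 / (d : ℝ)) :=
          (lintegral_biUnion_finset hdis (fun k _ => sh_meas _) _).symm
      _ ≤ I := setLIntegral_le_lintegral _ _
  -- conclusion
  have hmin1 : min c₂ c₃ ≤ c₂ := min_le_left _ _
  have hmin2 : min c₂ c₃ ≤ c₃ := min_le_right _ _
  have hmin0 : 0 < min c₂ c₃ := lt_min hc₂0 hc₃0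
  rcases Nat.eq_zero_or_pos K with hK1 | hK1
  · refine le_trans (ENNReal.ofReal_le_ofReal ?_) hball
    have h1 : 1 + Real.log N ≤ C := by
      rw [hK1] at hlog1
      simpa using hlog1
    calc min c₂ c₃ / (2 * C) * X * (1 + Real.log N) ≤ min c₂ c₃ / (2 * C) * X * C := by gcongr
      _ = min c₂ c₃ / 2 * X := by field_simp
      _ ≤ c₃ * X := by
          apply mul_le_mul_of_nonneg_right _ hX0.le
          linarith
  · refine le_trans (ENNReal.ofReal_le_ofReal ?_) hshell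
    have hK2 : (1 : ℝ) ≤ K := by exact_mod_cast hK1
    calc min c₂ c₃ / (2 * C) * X * (1 + Real.log N) ≤ min c₂ c₃ / (2 * C) * X * (C * (K + 1)) := by gcongr
      _ = min c₂ c₃ * X * ((K + 1) / 2) := by field_simp
      _ ≤ c₂ * X * K := by
          gcongr
          linarith
      _ = _ := by ring

end Pool.Agent.R251.End
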